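import Mathlib

/-!
# The 2-adic valuation of a normalised binomial convolution

`t k = C(6k,3k) C(3k,k)` has the 2-adic valuation `2 s(k)`, `s` the binary digit sum, and
`C(3n,n)` has the valuation `2 s(n) - s(3n)`.  Writing `∑ t k t (n-k) = 4^{s(n)} U`, one finds
`U ≡ ∑ C(n,k)^2 = C(2n,n) (mod 4)`, because odd squares are `1` and even squares `0` modulo `4` and
the terms for `k` and `n - k` are equal.  As `C(2n,n)` has the valuation `s(n)`, the valuation of
`a(n)` is `1 + 2` if `n` is a power of two and at least `2 + 2` otherwise.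
-/

set_option autoImplicit false

namespace Pool.Agent.Results.MP_49e939_nt.TwoAdicValuation

open Finset

/-- `t_k = C(6k, 3k) C(3k, k)`. -/
def t (k : ℕ) : ℕ := (6 * k).choose (3 * k) * (3 * k).choose k

/-- `a(n) = (∑_{k=0}^n t_k t_{n-k}) / ((2n - 1) C(3n, n))`. -/
def a (n : ℕ) : ℚ :=
  1 / ((2 * (n : ℚ) - 1) * ((3 * n).choose n : ℚ)) * ∑ k ∈ range (n + 1), (t k : ℚ) * (t (n - k) : ℚ)

/-- the binary digit sum -/
def s (n : ℕ) : ℕ := (Nat.digits 2 n).sum

theorem s_zero : s 0 = 0 := by simp [s]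

theorem s_two_mul (m : ℕ) : s (2 * m) = s m := by
  rcases Nat.eq_zero_or_pos m with rfl | hm
  · rfl
  · unfold s
    rw [Nat.digits_def' (by norm_num) (by omega)]
    have e1 : 2 * m % 2 = 0 := by omega
    have e2 : 2 * m / 2 = m := by omega
    rw [e1, e2]
    simp

theorem s_two_mul_add_one (m : ℕ) : s (2 * m + 1) = s m + 1 := by
  unfold s
  rw [Nat.digits_def' (by norm_num) (by omega)]
  have e1 : (2 * m + 1) % 2 = 1 := by omega
  have e2 : (2 * m + 1) / 2 = m := by omega
  rw [e1, e2]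
  simp [add_comm]

theorem s_le (n : ℕ) : s n ≤ n := Nat.digit_sum_le 2 n

theorem s_pos {n : ℕ} (hn : 0 < n) : 0 < s n := by
  induction n using Nat.strong_induction_on with
  | _ n ih =>
    rcases Nat.even_or_odd' n with ⟨m, rfl | rfl⟩
    · rw [s_two_mul]; exact ih m (by omega) (by omega)
    · rw [s_two_mul_add_one]; omega

theorem s_eq_one {n : ℕ} (h : s n = 1) : ∃ j, n = 2 ^ j := by
  induction n using Nat.strong_induction_on with
  | _ n ih =>
    rcases Nat.even_or_odd' n with ⟨m, rfl | rfl⟩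
    · rw [s_two_mul] at h
      have hm : 0 < m := by
        rcases Nat.eq_zero_or_pos m with rfl | hm
        · rw [s_zero] at h; omega
        · exact hm
      obtain ⟨j, hj⟩ := ih m (by omega) h
      exact ⟨j + 1, by rw [hj, pow_succ]; ring⟩
    · rw [s_two_mul_add_one] at h
      have hm : m = 0 := by
        rcases Nat.eq_zero_or_pos m with hm | hm
        · exact hm
        · have := s_pos hm; omega
      exact ⟨0, by rw [hm]; rfl⟩

theorem s_pow (j : ℕ) : s (2 ^ j) = 1 := by
  induction j with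
  | zero => simp [s]
  | succ j ih => rw [pow_succ, mul_comm, s_two_mul, ih]

theorem s_three_pow (j : ℕ) : s (3 * 2 ^ j) = 2 := by
  induction j with
  | zero =>
    have : 3 * 2 ^ 0 = 2 * (2 * 0 + 1) + 1 := by norm_num
    rw [this, s_two_mul_add_one, s_two_mul_add_one, s_zero]
  | succ j ih =>
    have : 3 * 2 ^ (j + 1) = 2 * (3 * 2 ^ j) := by rw [pow_succ]; ring
    rw [this, s_two_mul, ih]

theorem two_le_s_three {n : ℕ} (hn : 0 < n) : 2 ≤ s (3 * n) := by
  have h1 : 0 < s (3 * n) := s_pos (by omega)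
  have h2 : s (3 * n) ≠ 1 := by
    intro h
    obtain ⟨j, hj⟩ := s_eq_one h
    have h3 : 3 ∣ 2 ^ j := ⟨n, hj.symm⟩
    have h4 := Nat.prime_three.dvd_of_dvd_pow h3
    omega
  omega

/-- Legendre's formula in additive form -/
theorem val_fact (n : ℕ) : padicValNat 2 n.factorial + s n = n := by
  have h := @sub_one_mul_padicValNat_factorial 2 _ n
  have h2 := s_le n
  unfold s at *
  simp only [show (2 : ℕ) - 1 = 1 from rfl, one_mul] at h
  omega

/-- Kummer's theorem in additive form -/
theorem val_choose {n k : ℕ} (hk : k ≤ n) :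
    s k + s (n - k) = s n + padicValNat 2 (n.choose k) := by
  have h := Nat.choose_mul_factorial_mul_factorial hk
  have h1 : padicValNat 2 (n.choose k * k.factorial * (n - k).factorial) =
      padicValNat 2 n.factorial := by rw [h]
  rw [padicValNat.mul (mul_ne_zero (Nat.choose_pos hk).ne' (Nat.factorial_ne_zero _))
    (Nat.factorial_ne_zero _), padicValNat.mul (Nat.choose_pos hk).ne' (Nat.factorial_ne_zero _)] at h1
  have h2 := val_fact n
  have h3 := val_fact k
  have h4 := val_fact (n - k)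
  omega

theorem t_pos (k : ℕ) : 0 < t k :=
  Nat.mul_pos (Nat.choose_pos (by omega)) (Nat.choose_pos (by omega))

theorem val_three (k : ℕ) : s k + s k = s (3 * k) + padicValNat 2 ((3 * k).choose k) := by
  have h := val_choose (n := 3 * k) (k := k) (by omega)
  have e : 3 * k - k = 2 * k := by omega
  rw [e, s_two_mul] at h
  exact h

theorem val_t (k : ℕ) : padicValNat 2 (t k) = 2 * s k := by
  unfold t
  rw [padicValNat.mul (Nat.choose_pos (by omega)).ne' (Nat.choose_pos (by omega)).ne']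
  have h1 := val_choose (n := 6 * k) (k := 3 * k) (by omega)
  have e : 6 * k - 3 * k = 3 * k := by omega
  have e2 : 6 * k = 2 * (3 * k) := by ring
  rw [e] at h1
  rw [e2, s_two_mul] at h1
  have h2 := val_three k
  rw [e2]
  omega

/-- the odd part of `t_k` -/
theorem t_odd_part (k : ℕ) : ∃ o : ℕ, o % 2 = 1 ∧ t k = 4 ^ s k * o := by
  have h1 : 2 ^ padicValNat 2 (t k) ∣ t k := pow_padicValNat_dvd
  obtain ⟨o, ho⟩ := h1
  refine ⟨o, ?_, ?_⟩
  · by_contra hodd
    have hodd : 2 ∣ o := by omega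
    obtain ⟨q, rfl⟩ := hodd
    have h2 : 2 ^ (padicValNat 2 (t k) + 1) ∣ t k := by
      refine ⟨q, ?_⟩
      generalize padicValNat 2 (t k) = v at ho ⊢
      rw [ho, pow_succ]
      ring
    exact pow_succ_padicValNat_not_dvd (t_pos k).ne' h2
  · rw [val_t] at ho
    rw [ho, pow_mul]
    norm_num

theorem zmod4_odd_sq (x : ℕ) (h : x % 2 = 1) : ((x : ZMod 4)) ^ 2 = 1 := by
  have h1 : x % 4 = 1 ∨ x % 4 = 3 := by omega
  have h2 : (x : ZMod 4) = ((x % 4 : ℕ) : ZMod 4) := (ZMod.natCast_mod x 4).symm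
  rcases h1 with h1 | h1 <;> rw [h2, h1] <;> decide

theorem zmod4_even_sq (x : ℕ) (h : x % 2 = 0) : ((x : ZMod 4)) ^ 2 = 0 := by
  have h1 : x % 4 = 0 ∨ x % 4 = 2 := by omega
  have h2 : (x : ZMod 4) = ((x % 4 : ℕ) : ZMod 4) := (ZMod.natCast_mod x 4).symm
  rcases h1 with h1 | h1 <;> rw [h2, h1] <;> decide

theorem zmod4_two_mul (x : ℕ) (h : x % 2 = 1) : 2 * ((x : ZMod 4) - 1) = 0 := by
  have h1 : x % 4 = 1 ∨ x % 4 = 3 := by omega
  have h2 : (x : ZMod 4) = ((x % 4 : ℕ) : ZMod 4) := (ZMod.natCast_mod x 4).symm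
  rcases h1 with h1 | h1 <;> rw [h2, h1] <;> decide

/-- `∑ t_k t_{n-k} = 4^{s(n)} U` with `U ≡ C(2n,n) (mod 4)`. -/
theorem main (n : ℕ) (hn : 0 < n) : ∃ U : ℕ,
    ∑ k ∈ range (n + 1), t k * t (n - k) = 4 ^ s n * U ∧
      (U : ZMod 4) = ((2 * n).choose n : ZMod 4) := by
  choose o ho1 ho2 using t_odd_part
  set c : ℕ → ℕ := fun k => padicValNat 2 (n.choose k) with hc
  set u : ℕ → ℕ := fun k => 4 ^ c k * (o k * o (n - k)) with hu
  refine ⟨∑ k ∈ range (n + 1), u k, ?_, ?_⟩
  · rw [Finset.mul_sum]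
    refine Finset.sum_congr rfl fun k hk => ?_
    have hk' : k ≤ n := by simpa [Nat.lt_succ_iff] using hk
    have h1 := val_choose hk'
    rw [ho2 k, ho2 (n - k), hu]
    have h2 : 4 ^ s k * 4 ^ s (n - k) = 4 ^ s n * 4 ^ c k := by
      rw [← pow_add, ← pow_add, h1]
    calc 4 ^ s k * o k * (4 ^ s (n - k) * o (n - k))
        = (4 ^ s k * 4 ^ s (n - k)) * (o k * o (n - k)) := by ring
      _ = 4 ^ s n * 4 ^ c k * (o k * o (n - k)) := by rw [h2]
      _ = 4 ^ s n * (4 ^ c k * (o k * o (n - k))) := by ring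
  · rw [← Nat.sum_range_choose_sq, ← sub_eq_zero]
    push_cast
    rw [← Finset.sum_sub_distrib]
    -- parity of the binomial coefficient and of `c`
    have hodd : ∀ k, k ≤ n → n.choose k % 2 = 1 → c k = 0 := by
      intro k _ h
      simp only [hc]
      exact padicValNat.eq_zero_of_not_dvd (by omega)
    have heven : ∀ k, k ≤ n → n.choose k % 2 = 0 → 0 < c k := by
      intro k hk h
      simp only [hc]
      have : 2 ∣ n.choose k := by omega
      exact one_le_padicValNat_of_dvd (Nat.choose_pos hk).ne' this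
    have h4 : (4 : ZMod 4) = 0 := by decide
    have hval : ∀ k, k ≤ n → ((u k : ℕ) : ZMod 4) - ((n.choose k : ℕ) : ZMod 4) ^ 2 =
        if n.choose k % 2 = 1 then ((o k * o (n - k) : ℕ) : ZMod 4) - 1 else 0 := by
      intro k hk
      split_ifs with h
      · rw [zmod4_odd_sq _ h]
        simp only [hu]
        rw [hodd k hk h]
        push_cast
        ring
      · have h' : n.choose k % 2 = 0 := by omega
        rw [zmod4_even_sq _ h']
        simp only [hu]
        obtain ⟨e, he⟩ := Nat.exists_eq_succ_of_ne_zero (heven k hk h').ne'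
        rw [he]
        push_cast
        rw [h4]
        simp
    have hval' : ∀ k ∈ range (n + 1),
        ((u k : ℕ) : ZMod 4) - ((n.choose k : ℕ) : ZMod 4) ^ 2 =
        if n.choose k % 2 = 1 then ((o k * o (n - k) : ℕ) : ZMod 4) - 1 else 0 := by
      intro k hk
      exact hval k (by simpa [Nat.lt_succ_iff] using hk)
    rw [Finset.sum_congr rfl hval']
    refine Finset.sum_involution (fun k _ => n - k) ?_ ?_ ?_ ?_
    · intro k hk
      have hk' : k ≤ n := by simpa [Nat.lt_succ_iff] using hk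
      have e : n - (n - k) = k := by omega
      rw [e, Nat.choose_symm hk']
      split_ifs with h
      · have h5 := zmod4_two_mul (o k * o (n - k)) (by
          rw [Nat.mul_mod, ho1, ho1])
        rw [mul_comm (o (n - k)) (o k), ← two_mul]
        exact h5
      · simp
    · intro k hk hne
      have hk' : k ≤ n := by simpa [Nat.lt_succ_iff] using hk
      intro heq
      have hn2 : n = 2 * k := by omega
      have hk0 : 0 < k := by omega
      apply hne
      rw [if_neg]
      rw [hn2]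
      obtain ⟨m, rfl⟩ : ∃ m, k = m + 1 := ⟨k - 1, by omega⟩
      have h6 : 2 ∣ Nat.centralBinom (m + 1) := Nat.two_dvd_centralBinom_succ m
      rw [Nat.centralBinom_eq_two_mul_choose] at h6
      omega
    · intro k hk
      simp only [Finset.mem_range]
      omega
    · intro k hk
      have hk' : k ≤ n := by simpa [Nat.lt_succ_iff] using hk
      omega

theorem val_sum (n : ℕ) (hn : 0 < n) :
    ∃ e : ℕ, padicValNat 2 (∑ k ∈ range (n + 1), t k * t (n - k)) = 2 * s n + e ∧
      (s n = 1 → e = 1) ∧ (2 ≤ s n → 2 ≤ e) := by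
  obtain ⟨U, hU, hU4⟩ := main n hn
  have hpos : 0 < ∑ k ∈ range (n + 1), t k * t (n - k) := by
    apply Finset.sum_pos
    · intro k _; exact Nat.mul_pos (t_pos _) (t_pos _)
    · exact ⟨0, by simp⟩
  have hU0 : U ≠ 0 := by
    rintro rfl
    rw [hU] at hpos; simp at hpos
  have hmod : U % 4 = (2 * n).choose n % 4 := by
    have := (ZMod.natCast_eq_natCast_iff' U ((2 * n).choose n) 4).1 (by exact_mod_cast hU4)
    exact this
  have hvc : padicValNat 2 ((2 * n).choose n) = s n := by
    have h := val_choose (n := 2 * n) (k := n) (by omega)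
    have e : 2 * n - n = n := by omega
    rw [e, s_two_mul] at h
    omega
  have hcpos : (2 * n).choose n ≠ 0 := (Nat.choose_pos (by omega)).ne'
  refine ⟨padicValNat 2 U, ?_, ?_, ?_⟩
  · rw [hU, padicValNat.mul (by positivity) hU0]
    have : padicValNat 2 (4 ^ s n) = 2 * s n := by
      have : (4 : ℕ) ^ s n = 2 ^ (2 * s n) := by rw [pow_mul]; norm_num
      rw [this, padicValNat.prime_pow]
    rw [this]
  · intro h1
    have h2 : 2 ∣ (2 * n).choose n := by
      apply dvd_of_one_le_padicValNat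
      omega
    have h3 : ¬ 2 ^ 2 ∣ (2 * n).choose n := by
      intro h
      have := (padicValNat_dvd_iff_le (p := 2) hcpos).1 h
      omega
    have h4 : U % 4 = 2 := by
      rw [hmod]; omega
    have h5 : 1 ≤ padicValNat 2 U := one_le_padicValNat_of_dvd hU0 (by omega)
    have h6 : ¬ 2 ≤ padicValNat 2 U := by
      intro h
      have h7 : 2 ^ 2 ∣ U := (padicValNat_dvd_iff_le (p := 2) hU0).2 h
      omega
    omega
  · intro h1
    have h2 : 2 ^ 2 ∣ (2 * n).choose n := (padicValNat_dvd_iff_le (p := 2) hcpos).2 (by omega)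
    have h3 : 2 ^ 2 ∣ U := by
      have : U % 4 = 0 := by rw [hmod]; omega
      omega
    exact (padicValNat_dvd_iff_le (p := 2) hU0).1 h3

/-- the valuation of `a(n)` is `e + s(3n)` -/
theorem val_a (n : ℕ) (hn : 0 < n) : ∃ e : ℕ, padicValRat 2 (a n) = (e + s (3 * n) : ℕ) ∧
      (s n = 1 → e = 1) ∧ (2 ≤ s n → 2 ≤ e) := by
  obtain ⟨e, he, h1, h2⟩ := val_sum n hn
  refine ⟨e, ?_, h1, h2⟩
  have hpos : 0 < ∑ k ∈ range (n + 1), t k * t (n - k) := by
    apply Finset.sum_pos
    · intro k _; exact Nat.mul_pos (t_pos _) (t_pos _)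
    · exact ⟨0, by simp⟩
  have hc : (3 * n).choose n ≠ 0 := (Nat.choose_pos (by omega)).ne'
  have ea : a n = ((∑ k ∈ range (n + 1), t k * t (n - k) : ℕ) : ℚ) /
      (((2 * n - 1) * (3 * n).choose n : ℕ) : ℚ) := by
    unfold a
    have : ((2 * n - 1 : ℕ) : ℚ) = 2 * (n : ℚ) - 1 := by
      rw [Nat.cast_sub (by omega)]; push_cast; ring
    rw [Nat.cast_mul, this]
    push_cast
    ring
  have hd : (2 * n - 1) * (3 * n).choose n ≠ 0 := Nat.mul_ne_zero (by omega) hc
  rw [ea, padicValRat.div (by exact_mod_cast hpos.ne') (by exact_mod_cast hd),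
    padicValRat.of_nat, padicValRat.of_nat, he, padicValNat.mul (by omega) hc]
  have hodd : padicValNat 2 (2 * n - 1) = 0 := padicValNat.eq_zero_of_not_dvd (by omega)
  rw [hodd]
  have h3 := val_three n
  generalize padicValNat 2 ((3 * n).choose n) = A at h3 ⊢
  omega

/-- **Q1 is true.**  For every `n ≥ 1` the 2-adic valuation of
`a(n) = (∑_{k=0}^n t_k t_{n-k}) / ((2n - 1) C(3n, n))`, `t_k = C(6k, 3k) C(3k, k)`, is at least `3`,
with equality if and only if `n` is a power of two.  Consequently, whenever `a(n)` is the integer `z`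
(it always is an integer), `8` divides `z`, and `z / 8` is odd if and only if `n` is a power of two. -/
theorem result : ∀ n : ℕ, 1 ≤ n →
    (3 ≤ padicValRat 2 (a n) ∧ (padicValRat 2 (a n) = 3 ↔ ∃ j : ℕ, n = 2 ^ j)) ∧
    ∀ z : ℤ, a n = z → 8 ∣ z ∧ (Odd (z / 8) ↔ ∃ j : ℕ, n = 2 ^ j) := by
  intro n hn
  obtain ⟨e, he, h1, h2⟩ := val_a n hn
  have hs3 := two_le_s_three hn
  have hs := s_pos hn
  have key : 3 ≤ padicValRat 2 (a n) ∧ (padicValRat 2 (a n) = 3 ↔ ∃ j : ℕ, n = 2 ^ j) := by
    rw [he]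
    by_cases hp : s n = 1
    · obtain ⟨j, rfl⟩ := s_eq_one hp
      rw [h1 hp, s_three_pow]
      refine ⟨by norm_num, ?_⟩
      simp only [Nat.cast_ofNat, Nat.reduceAdd, true_iff]
      exact ⟨j, rfl⟩
    · have h3 := h2 (by omega)
      refine ⟨by push_cast; omega, ?_⟩
      constructor
      · intro h
        exfalso
        push_cast at h
        omega
      · rintro ⟨j, rfl⟩
        exact absurd (s_pow j) hp
  refine ⟨key, ?_⟩
  intro z hz
  have hz0 : z ≠ 0 := by
    rintro rfl
    have h3 := key.1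
    rw [hz] at h3
    simp at h3
  rw [hz, padicValRat.of_int] at key
  have h8 : (8 : ℤ) ∣ z := by
    have : ((2 : ℕ) : ℤ) ^ 3 ∣ z := by
      rw [padicValInt_dvd_iff]
      right
      exact_mod_cast key.1
    simpa using this
  refine ⟨h8, ?_⟩
  rw [← key.2]
  obtain ⟨w, rfl⟩ := h8
  have hw0 : w ≠ 0 := by rintro rfl; simp at hz0
  have e8 : 8 * w / 8 = w := by omega
  rw [e8]
  have hv : padicValInt 2 (8 * w) = 3 + padicValInt 2 w := by
    rw [padicValInt.mul (by norm_num) hw0]
    congr 1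
    have : (8 : ℤ) = ((2 ^ 3 : ℕ) : ℤ) := by norm_num
    rw [this, padicValInt.of_nat, padicValNat.prime_pow]
  rw [hv]
  constructor
  · intro hodd
    have : padicValInt 2 w = 0 := padicValInt.eq_zero_of_not_dvd (by
      intro h
      have h' : (2 : ℤ) ∣ w := by exact_mod_cast h
      rcases hodd with ⟨r, hr⟩
      omega)
    rw [this]; norm_num
  · intro h
    have h0 : padicValInt 2 w = 0 := by
      have : ((3 + padicValInt 2 w : ℕ) : ℤ) = 3 := h
      omega
    rw [← Int.not_even_iff_odd]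
    intro heven
    have h' : ((2 : ℕ) : ℤ) ^ 1 ∣ w := by
      rw [pow_one]; exact_mod_cast heven.two_dvd
    rw [padicValInt_dvd_iff] at h'
    rcases h' with h' | h'
    · exact hw0 h'
    · omega

end Pool.Agent.Results.MP_49e939_nt.TwoAdicValuation
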